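import Mathlib
import Pool.Agent.V11125.Acc

set_option autoImplicit false

namespace Pool.Agent.Results.MP_ef0d97_co.CubicOrder

open Finset Pool.Agent.V11125.Acc

/-- `F` is vertex-transitive: the group of permutations `σ` of the ground set with `σ(F) = F` acts
transitively on the ground set. -/
def VertexTransitive {n : ℕ} (F : Finset (Finset (Fin n))) : Prop :=
  ∀ x y : Fin n, ∃ σ : Equiv.Perm (Fin n),
    F.image (fun X => X.image σ) = F ∧ σ x = y

/-- `v(n)`: the minimum size of a vertex-transitive family of 4-element subsets of an `n`-set with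
respect to which `K_n` has no `(2,2)`-acceptable Hamilton cycle. -/
noncomputable def vmin (n : ℕ) : ℕ :=
  sInf {k : ℕ | ∃ F : Finset (Finset (Fin n)), Blocking F ∧ VertexTransitive F ∧ F.card = k}

/-- the family of 4-sets containing two cyclically consecutive elements -/
def fam (n : ℕ) : Finset (Finset (Fin n)) :=
  ((univ : Finset (Fin n)).powersetCard 4).filter (fun X => ∃ i : Fin n, i ∈ X ∧ finRotate n i ∈ X)

lemma fam_blocking {n : ℕ} (hn : 4 ≤ n) : Blocking (fam n) := by
  refine ⟨fun X hX => (mem_powersetCard.1 (mem_filter.1 hX).1).2, fun σ hσ => ?_⟩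
  obtain ⟨i, j, h1, h2, h3, h4⟩ := exists_two_edges hn σ ⟨0, by omega⟩ (finRotate n ⟨0, by omega⟩)
    ((finRotate_ne hn _).1.symm)
  exact hσ i j h1 (mem_filter.2 ⟨mem_powersetCard.2 ⟨subset_univ _, h2⟩, _, h3, h4⟩)

lemma rot_pow_trans {n : ℕ} (x y : Fin n) : ∃ k : ℕ, ((finRotate n) ^ k) x = y := by
  have hn : 0 < n := by have := x.2; omega
  obtain ⟨m, rfl⟩ : ∃ m, n = m + 1 := ⟨n - 1, by omega⟩
  have h0 : ∀ k : ℕ, ∀ z : Fin (m + 1),
      ((((finRotate (m + 1)) ^ k) z : Fin (m + 1)) : ℕ) = ((z : ℕ) + k) % (m + 1) := by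
    intro k
    induction k with
    | zero =>
      intro z
      have := z.2
      simp [Nat.mod_eq_of_lt z.2]
    | succ k ih =>
      intro z
      rw [pow_succ', Equiv.Perm.mul_apply, coe_finRotate]
      have h1 : ((z : ℕ) + (k + 1)) % (m + 1) = (((z : ℕ) + k) % (m + 1) + 1) % (m + 1) := by
        rw [Nat.mod_add_mod, add_assoc]
      rw [h1, ← ih z]
      by_cases h : ((finRotate (m + 1)) ^ k) z = Fin.last m
      · rw [if_pos h, h]
        simp
      · rw [if_neg h, Nat.mod_eq_of_lt]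
        have h2 := (((finRotate (m + 1)) ^ k) z).2
        have h3 : ((((finRotate (m + 1)) ^ k) z : Fin (m + 1)) : ℕ) ≠ m := fun h' =>
          h (Fin.ext h')
        omega
  refine ⟨(y : ℕ) + (m + 1) - x, Fin.ext ?_⟩
  rw [h0]
  have hx := x.2
  have h1 : (x : ℕ) + ((y : ℕ) + (m + 1) - x) = (y : ℕ) + (m + 1) := by omega
  rw [h1, Nat.add_mod_right, Nat.mod_eq_of_lt y.2]

lemma fam_transitive (n : ℕ) : VertexTransitive (fam n) := by
  intro x y
  obtain ⟨k, hk⟩ := rot_pow_trans x y
  refine ⟨(finRotate n) ^ k, ?_, hk⟩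
  have hsub : (fam n).image (fun X => X.image ((finRotate n) ^ k : Equiv.Perm (Fin n))) ⊆ fam n := by
    intro Y hY
    obtain ⟨X, hX, rfl⟩ := mem_image.1 hY
    obtain ⟨h1, i, hi, hi'⟩ := mem_filter.1 hX
    refine mem_filter.2 ⟨mem_powersetCard.2 ⟨subset_univ _, ?_⟩, ((finRotate n) ^ k) i,
      mem_image_of_mem _ hi, ?_⟩
    · rw [card_image_of_injective _ (Equiv.injective _)]
      exact (mem_powersetCard.1 h1).2
    · have : finRotate n (((finRotate n) ^ k) i) = ((finRotate n) ^ k) (finRotate n i) := by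
        rw [← Equiv.Perm.mul_apply, ← Equiv.Perm.mul_apply, ← pow_succ', ← pow_succ]
      rw [this]
      exact mem_image_of_mem _ hi'
  apply eq_of_subset_of_card_le hsub
  rw [card_image_of_injective]
  intro X Y h
  exact (image_injective (Equiv.injective _)) h

lemma setDeg_le {n : ℕ} (F : Finset (Finset (Fin n))) (hF : ∀ X ∈ F, X.card = 4) (a b : Fin n)
    (hab : a ≠ b) : 2 * setDeg F {a, b} ≤ n * n := by
  have h1 : setDeg F {a, b} ≤ ((univ : Finset (Fin n)).powersetCard 2).card := by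
    apply card_le_card_of_injOn (fun X => X \ {a, b})
    · intro X hX
      have hX' := mem_filter.1 hX
      rw [mem_coe, mem_powersetCard]
      refine ⟨subset_univ _, ?_⟩
      rw [card_sdiff_of_subset hX'.2, hF X hX'.1, card_pair hab]
    · intro X hX Y hY h
      have hX' := mem_filter.1 hX
      have hY' := mem_filter.1 hY
      have h' : X \ {a, b} = Y \ {a, b} := h
      rw [← sdiff_union_of_subset hX'.2, ← sdiff_union_of_subset hY'.2, h']
  rw [card_powersetCard, card_univ, Fintype.card_fin] at h1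
  have h2 : 2 * n.choose 2 ≤ n * n := by
    rw [Nat.choose_two_right]
    have := Nat.mul_div_le (n * (n - 1)) 2
    have h3 : n * (n - 1) ≤ n * n := Nat.mul_le_mul_left _ (Nat.sub_le _ _)
    omega
  omega

lemma fam_card (n : ℕ) (hn : 4 ≤ n) : 2 * (fam n).card ≤ n * (n * n) := by
  have hF : ∀ X ∈ fam n, X.card = 4 := fun X hX => (mem_powersetCard.1 (mem_filter.1 hX).1).2
  have h1 : fam n ⊆ (univ : Finset (Fin n)).biUnion
      (fun i => (fam n).filter (fun X => ({i, finRotate n i} : Finset (Fin n)) ⊆ X)) := by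
    intro X hX
    obtain ⟨i, hi, hi'⟩ := (mem_filter.1 hX).2
    refine mem_biUnion.2 ⟨i, mem_univ _, mem_filter.2 ⟨hX, ?_⟩⟩
    intro z hz
    simp only [mem_insert, mem_singleton] at hz
    rcases hz with rfl | rfl
    · exact hi
    · exact hi'
  have h2 := (card_le_card h1).trans card_biUnion_le
  have h3 : ∀ i : Fin n, 2 * ((fam n).filter
      (fun X => ({i, finRotate n i} : Finset (Fin n)) ⊆ X)).card ≤ n * n :=
    fun i => setDeg_le (fam n) hF i _ (finRotate_ne hn i).1.symm
  calc 2 * (fam n).card ≤ 2 * ∑ i : Fin n, ((fam n).filter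
        (fun X => ({i, finRotate n i} : Finset (Fin n)) ⊆ X)).card := by omega
    _ = ∑ i : Fin n, 2 * ((fam n).filter
        (fun X => ({i, finRotate n i} : Finset (Fin n)) ⊆ X)).card := by rw [mul_sum]
    _ ≤ ∑ _i : Fin n, n * n := sum_le_sum (fun i _ => h3 i)
    _ = n * (n * n) := by simp

/-- all vertices of a vertex-transitive family have the same degree -/
lemma deg_const {n : ℕ} (F : Finset (Finset (Fin n))) (hF : VertexTransitive F) (x y : Fin n) :
    (F.filter (fun X => x ∈ X)).card = (F.filter (fun X => y ∈ X)).card := by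
  obtain ⟨σ, hσ, rfl⟩ := hF x y
  have h1 : (F.filter (fun X => σ x ∈ X)) = (F.filter (fun X => x ∈ X)).image
      (fun X => X.image σ) := by
    ext Y
    simp only [mem_filter, mem_image]
    constructor
    · rintro ⟨hY, hxY⟩
      rw [← hσ] at hY
      obtain ⟨X, hX, rfl⟩ := mem_image.1 hY
      refine ⟨X, ⟨hX, ?_⟩, rfl⟩
      obtain ⟨z, hz, hzx⟩ := mem_image.1 hxY
      rwa [← σ.injective hzx]
    · rintro ⟨X, ⟨hX, hxX⟩, rfl⟩
      refine ⟨?_, mem_image_of_mem _ hxX⟩
      rw [← hσ]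
      exact mem_image_of_mem _ hX
  rw [h1, card_image_of_injective _ (image_injective σ.injective)]

/-- double counting: `∑_{w ≠ v} d(v,w) = 3 d(v)` -/
lemma sum_pairDeg {n : ℕ} (F : Finset (Finset (Fin n))) (hF : ∀ X ∈ F, X.card = 4) (v : Fin n) :
    ∑ w ∈ (univ : Finset (Fin n)).filter (fun w => w ≠ v), setDeg F {v, w} =
      3 * (F.filter (fun X => v ∈ X)).card := by
  classical
  have h1 : ∀ w, setDeg F {v, w} = ∑ X ∈ F, if v ∈ X ∧ w ∈ X then 1 else 0 := by
    intro w
    rw [setDeg, card_filter]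
    apply sum_congr rfl
    intro X _
    have : ({v, w} : Finset (Fin n)) ⊆ X ↔ v ∈ X ∧ w ∈ X := by
      rw [insert_subset_iff, singleton_subset_iff]
    simp only [this]
  simp only [h1]
  rw [sum_comm, card_filter, mul_sum]
  apply sum_congr rfl
  intro X hX
  by_cases hv : v ∈ X
  · simp only [hv, true_and, if_true]
    rw [← card_filter, filter_filter]
    have : (univ : Finset (Fin n)).filter (fun w => w ≠ v ∧ w ∈ X) = X.erase v := by
      ext w; simp [mem_erase]
    rw [this, card_erase_of_mem hv, hF X hX]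
    norm_num
  · simp [hv]

lemma sum_deg {n : ℕ} (F : Finset (Finset (Fin n))) (hF : ∀ X ∈ F, X.card = 4) :
    ∑ v : Fin n, (F.filter (fun X => v ∈ X)).card = 4 * F.card := by
  classical
  simp only [card_filter]
  rw [sum_comm]
  have : ∀ X ∈ F, (∑ v : Fin n, if v ∈ X then 1 else 0) = 4 := by
    intro X hX
    rw [← card_filter]
    simp [hF X hX]
  rw [sum_congr rfl this]
  simp [mul_comm]

/-- **`v(n)` has order of magnitude `n^3`**; in particular `v(n)` is not `O(n^2)`. -/
theorem result :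
    (∃ c C : ℝ, 0 < c ∧ ∀ n : ℕ, 4 ≤ n →
      c * (n : ℝ) ^ 3 ≤ (vmin n : ℝ) ∧ (vmin n : ℝ) ≤ C * (n : ℝ) ^ 3) ∧
    ¬ ∃ c : ℝ, ∀ n : ℕ, 4 ≤ n → (vmin n : ℝ) ≤ c * (n : ℝ) ^ 2 := by
  classical
  have hmain : ∃ c C : ℝ, 0 < c ∧ ∀ n : ℕ, 4 ≤ n →
      c * (n : ℝ) ^ 3 ≤ (vmin n : ℝ) ∧ (vmin n : ℝ) ≤ C * (n : ℝ) ^ 3 := by
    obtain ⟨μ, hμ, hacc⟩ := exists_mu
    refine ⟨μ / 48, 1 / 2, by positivity, ?_⟩
    intro n hn
    have hne : {k : ℕ | ∃ F : Finset (Finset (Fin n)),
        Blocking F ∧ VertexTransitive F ∧ F.card = k}.Nonempty :=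
      ⟨_, fam n, fam_blocking hn, fam_transitive n, rfl⟩
    have hn0 : (0 : ℝ) < (n : ℝ) := by exact_mod_cast (by omega : 0 < n)
    constructor
    · obtain ⟨F, ⟨hF4, hFb⟩, hFt, hFc⟩ := Nat.sInf_mem hne
      have hv : (vmin n : ℝ) = (F.card : ℝ) := by
        rw [hFc]
        rfl
      rw [hv]
      by_contra hlt
      push Not at hlt
      obtain ⟨σ, hσ⟩ := hacc n hn F hF4 (by
        intro v
        set H := (univ : Finset (Fin n)).filter
          (fun w => w ≠ v ∧ μ * (n : ℝ) < (setDeg F {v, w} : ℝ)) with hH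
        have h1 : (H.card : ℝ) * (μ * n) ≤ ((3 * (F.filter (fun X => v ∈ X)).card : ℕ) : ℝ) := by
          rw [← sum_pairDeg F hF4 v, ← nsmul_eq_mul]
          push_cast
          calc H.card • (μ * (n : ℝ)) ≤ ∑ w ∈ H, (setDeg F {v, w} : ℝ) := by
                apply card_nsmul_le_sum
                intro w hw
                exact (mem_filter.1 hw).2.2.le
            _ ≤ ∑ w ∈ (univ : Finset (Fin n)).filter (fun w => w ≠ v),
                (setDeg F {v, w} : ℝ) := by
                apply sum_le_sum_of_subset_of_nonneg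
                · intro w hw
                  exact mem_filter.2 ⟨mem_univ _, (mem_filter.1 hw).2.1⟩
                · intro w _ _
                  positivity
        have h2 : n * (F.filter (fun X => v ∈ X)).card = 4 * F.card := by
          rw [← sum_deg F hF4, sum_congr rfl (fun w _ => deg_const F hFt w v)]
          simp
        have h2' : (n : ℝ) * ((F.filter (fun X => v ∈ X)).card : ℝ) = 4 * (F.card : ℝ) := by
          exact_mod_cast h2
        set Δ : ℝ := ((F.filter (fun X => v ∈ X)).card : ℝ) with hΔ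
        have h3 : (H.card : ℝ) * (μ * n) ≤ 3 * Δ := by
          have := h1
          push_cast at this
          exact this
        -- combine
        have h4 : n * Δ < n * ((μ / 12) * (n : ℝ) ^ 2) := by
          rw [h2']
          calc 4 * (F.card : ℝ) < 4 * (μ / 48 * (n : ℝ) ^ 3) := by linarith
            _ = n * ((μ / 12) * (n : ℝ) ^ 2) := by ring
        have h5 : Δ < (μ / 12) * (n : ℝ) ^ 2 := lt_of_mul_lt_mul_left h4 hn0.le
        have h6 : (4 * (H.card : ℝ)) * (μ * n) < n * (μ * n) := by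
          calc (4 * (H.card : ℝ)) * (μ * n) = 4 * ((H.card : ℝ) * (μ * n)) := by ring
            _ ≤ 4 * (3 * Δ) := by linarith
            _ < 4 * (3 * ((μ / 12) * (n : ℝ) ^ 2)) := by linarith
            _ = n * (μ * n) := by ring
        have h7 : 4 * (H.card : ℝ) < n := lt_of_mul_lt_mul_right h6 (by positivity)
        have h8 : 4 * H.card < n := by exact_mod_cast h7
        exact h8.le)
      exact hFb σ hσ
    · have h1 : vmin n ≤ (fam n).card :=
        Nat.sInf_le ⟨fam n, fam_blocking hn, fam_transitive n, rfl⟩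
      have h2 := fam_card n hn
      have h3 : 2 * (vmin n : ℝ) ≤ (n : ℝ) * ((n : ℝ) * (n : ℝ)) := by
        have : 2 * vmin n ≤ n * (n * n) := by omega
        exact_mod_cast this
      nlinarith [h3]
  refine ⟨hmain, ?_⟩
  rintro ⟨c', hc'⟩
  obtain ⟨c, C, hc, h⟩ := hmain
  obtain ⟨N, hN⟩ := exists_nat_gt (c' / c)
  have h1 := (h (N + 4) (by omega)).1
  have h2 := hc' (N + 4) (by omega)
  have hpos : (0 : ℝ) < ((N + 4 : ℕ) : ℝ) := by positivity
  have h3 : c * ((N + 4 : ℕ) : ℝ) ^ 3 ≤ c' * ((N + 4 : ℕ) : ℝ) ^ 2 := h1.trans h2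
  have h4 : c * ((N + 4 : ℕ) : ℝ) ≤ c' := by
    have hsq : (0 : ℝ) < ((N + 4 : ℕ) : ℝ) ^ 2 := by positivity
    have : (c * ((N + 4 : ℕ) : ℝ)) * ((N + 4 : ℕ) : ℝ) ^ 2 ≤ c' * ((N + 4 : ℕ) : ℝ) ^ 2 := by
      calc (c * ((N + 4 : ℕ) : ℝ)) * ((N + 4 : ℕ) : ℝ) ^ 2 = c * ((N + 4 : ℕ) : ℝ) ^ 3 := by ring
        _ ≤ _ := h3
    exact le_of_mul_le_mul_right this hsq
  have h5 : c' < c * (N : ℝ) := by
    rw [div_lt_iff₀ hc] at hN
    linarith
  have h6 : c * (N : ℝ) ≤ c * ((N + 4 : ℕ) : ℝ) := by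
    apply mul_le_mul_of_nonneg_left _ hc.le
    push_cast
    linarith
  linarith

end Pool.Agent.Results.MP_ef0d97_co.CubicOrder
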